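import Mathlib

set_option autoImplicit false

namespace Pool.Agent.W223.Osasm

open MvPowerSeries

/-- The power series `(y - x) / ((1 - x y) (1 - x - y))` over the rationals. -/
noncomputable def G : MvPowerSeries (Fin 2) ℚ :=
  (X 1 - X 0) * ((1 - X 0 * X 1) * (1 - X 0 - X 1))⁻¹

/-- The coefficient of `x ^ a * y ^ b` in `G`. -/
noncomputable def c (a b : ℕ) : ℚ :=
  coeff (Finsupp.single (0 : Fin 2) a + Finsupp.single (1 : Fin 2) b) G

/-- exponent vector -/
noncomputable def ev (a b : ℕ) : Fin 2 →₀ ℕ :=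
  Finsupp.single (0 : Fin 2) a + Finsupp.single (1 : Fin 2) b

theorem c_def (a b : ℕ) : c a b = coeff (ev a b) G := rfl

theorem ev_succ0 (a b : ℕ) : ev (a + 1) b = ev a b + Finsupp.single 0 1 := by
  unfold ev
  rw [Finsupp.single_add]
  abel

theorem ev_succ1 (a b : ℕ) : ev a (b + 1) = ev a b + Finsupp.single 1 1 := by
  unfold ev
  rw [Finsupp.single_add]
  abel

theorem cX0 (a b : ℕ) (F : MvPowerSeries (Fin 2) ℚ) :
    coeff (ev (a + 1) b) (F * X 0) = coeff (ev a b) F := by
  rw [ev_succ0, X]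
  rw [coeff_add_mul_monomial, mul_one]

theorem cX0z (b : ℕ) (F : MvPowerSeries (Fin 2) ℚ) :
    coeff (ev 0 b) (F * X 0) = 0 := by
  rw [X, coeff_mul_monomial, if_neg]
  intro h
  have := h 0
  simp [ev] at this

theorem cX1 (a b : ℕ) (F : MvPowerSeries (Fin 2) ℚ) :
    coeff (ev a (b + 1)) (F * X 1) = coeff (ev a b) F := by
  rw [ev_succ1, X]
  rw [coeff_add_mul_monomial, mul_one]

theorem cX1z (a : ℕ) (F : MvPowerSeries (Fin 2) ℚ) :
    coeff (ev a 0) (F * X 1) = 0 := by
  rw [X, coeff_mul_monomial, if_neg]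
  intro h
  have := h 1
  simp [ev] at this

theorem G_mul : G - G * X 0 - G * X 1 - G * X 0 * X 1 + G * X 0 * X 0 * X 1
    + G * X 0 * X 1 * X 1 = X 1 - X 0 := by
  have h : G * ((1 - X 0 * X 1) * (1 - X 0 - X 1)) = X 1 - X 0 := by
    unfold G
    rw [mul_assoc, MvPowerSeries.inv_mul_cancel, mul_one]
    simp
  rw [← h]
  ring

theorem ev_inj {a b a' b' : ℕ} : ev a b = ev a' b' ↔ a = a' ∧ b = b' := by
  constructor
  · intro h
    have h0 := DFunLike.congr_fun h 0
    have h1 := DFunLike.congr_fun h 1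
    simp [ev] at h0 h1
    exact ⟨h0, h1⟩
  · rintro ⟨rfl, rfl⟩
    rfl

theorem coeffX0 (a b : ℕ) : coeff (ev a b) (X 0 : MvPowerSeries (Fin 2) ℚ) =
    if a = 1 ∧ b = 0 then 1 else 0 := by
  rw [X, coeff_monomial]
  have : (Finsupp.single (0 : Fin 2) 1 : Fin 2 →₀ ℕ) = ev 1 0 := by simp [ev]
  rw [this]
  simp only [ev_inj]

theorem coeffX1 (a b : ℕ) : coeff (ev a b) (X 1 : MvPowerSeries (Fin 2) ℚ) =
    if a = 0 ∧ b = 1 then 1 else 0 := by
  rw [X, coeff_monomial]
  have : (Finsupp.single (1 : Fin 2) 1 : Fin 2 →₀ ℕ) = ev 0 1 := by simp [ev]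
  rw [this]
  simp only [ev_inj]

theorem rel (a b : ℕ) : coeff (ev a b) (G - G * X 0 - G * X 1 - G * X 0 * X 1
    + G * X 0 * X 0 * X 1 + G * X 0 * X 1 * X 1) =
    (if a = 0 ∧ b = 1 then 1 else 0) - (if a = 1 ∧ b = 0 then 1 else 0) := by
  rw [G_mul, map_sub, coeffX0, coeffX1]

theorem c_rec (a b : ℕ) : c (a + 2) (b + 2) - c (a + 1) (b + 2) - c (a + 2) (b + 1)
    - c (a + 1) (b + 1) + c a (b + 1) + c (a + 1) b = 0 := by
  have h := rel (a + 2) (b + 2)
  simp only [map_add, map_sub, cX0, cX1] at h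
  simp only [c_def]
  simpa using h

theorem c_zero_zero : c 0 0 = 0 := by
  have h := rel 0 0
  simp only [map_add, map_sub, cX0z, cX1z] at h
  simp only [c_def]
  simpa using h

theorem c_succ_zero (a : ℕ) : c (a + 1) 0 = -1 := by
  induction a with
  | zero =>
    have h := rel 1 0
    simp only [map_add, map_sub, cX0, cX1z] at h
    have h0 := c_zero_zero
    simp only [c_def] at h0 ⊢
    norm_num [h0] at h
    simpa using h
  | succ a ih =>
    have h := rel (a + 1 + 1) 0
    simp only [map_add, map_sub, cX0, cX1z] at h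
    simp only [c_def] at ih ⊢
    norm_num [ih] at h
    linarith

theorem c_zero_succ (b : ℕ) : c 0 (b + 1) = 1 := by
  induction b with
  | zero =>
    have h := rel 0 1
    have e1 : coeff (ev 0 1) (G * X 1) = coeff (ev 0 0) G := cX1 0 0 G
    have e2 : coeff (ev 0 1) (G * X 0 * X 1) = 0 := (cX1 0 0 _).trans (cX0z 0 _)
    have e3 : coeff (ev 0 1) (G * X 0 * X 0 * X 1) = 0 := (cX1 0 0 _).trans (cX0z 0 _)
    have e4 : coeff (ev 0 1) (G * X 0 * X 1 * X 1) = 0 := (cX1 0 0 _).trans (cX1z 0 _)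
    simp only [map_add, map_sub, e1, e2, e3, e4, cX0z] at h
    have h0 := c_zero_zero
    simp only [c_def] at h0 ⊢
    norm_num [h0] at h
    simpa using h
  | succ b ih =>
    have h := rel 0 (b + 1 + 1)
    simp only [map_add, map_sub, cX1, cX0z] at h
    simp only [c_def] at ih ⊢
    norm_num [ih] at h
    linarith

theorem c_one_one : c 1 1 = 0 := by
  have h := rel (0 + 1) (0 + 1)
  simp only [map_add, map_sub, cX0, cX1, cX0z, cX1z] at h
  have h0 := c_zero_zero
  have h1 := c_succ_zero 0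
  have h2 := c_zero_succ 0
  simp only [c_def] at h0 h1 h2 ⊢
  norm_num [h0] at h h1 h2
  norm_num [h1, h2] at h
  linarith

theorem c_succ_succ_one (a : ℕ) : c (a + 2) 1 = -((a : ℚ) + 2) := by
  induction a with
  | zero =>
    have h := rel (0 + 1 + 1) (0 + 1)
    simp only [map_add, map_sub, cX0, cX1, cX0z, cX1z] at h
    have h0 := c_zero_zero
    have h1 := c_succ_zero 0
    have h2 := c_succ_zero 1
    have h3 := c_one_one
    simp only [c_def] at h0 h1 h2 h3 ⊢
    norm_num [h0] at h h1 h2 h3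
    norm_num [h1, h2, h3] at h ⊢
    linarith
  | succ a ih =>
    have h := rel (a + 1 + 1 + 1) (0 + 1)
    simp only [map_add, map_sub, cX0, cX1, cX0z, cX1z] at h
    have h1 := c_succ_zero a
    have h2 := c_succ_zero (a + 1)
    have h3 := c_succ_zero (a + 1 + 1)
    simp only [c_def] at h1 h2 h3 ih ⊢
    norm_num [h1, h2, h3] at h ih ⊢
    norm_num [ih] at h
    linarith

theorem c_one_succ_succ (b : ℕ) : c 1 (b + 2) = (b : ℚ) + 2 := by
  induction b with
  | zero =>
    have h := rel (0 + 1) (0 + 1 + 1)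
    simp only [map_add, map_sub, cX0, cX1, cX0z, cX1z] at h
    have h0 := c_zero_zero
    have h1 := c_zero_succ 0
    have h2 := c_zero_succ 1
    have h3 := c_one_one
    simp only [c_def] at h0 h1 h2 h3 ⊢
    norm_num [h0] at h h1 h2 h3
    norm_num [h1, h2, h3] at h ⊢
    linarith
  | succ b ih =>
    have h := rel (0 + 1) (b + 1 + 1 + 1)
    simp only [map_add, map_sub, cX0, cX1, cX0z, cX1z] at h
    have h1 := c_zero_succ b
    have h2 := c_zero_succ (b + 1)
    have h3 := c_zero_succ (b + 1 + 1)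
    simp only [c_def] at h1 h2 h3 ih ⊢
    norm_num [h1, h2, h3] at h ih ⊢
    norm_num [ih] at h
    linarith

theorem c_skew : ∀ a b : ℕ, c a b = - c b a
  | 0, 0 => by rw [c_zero_zero]; norm_num
  | 0, b + 1 => by rw [c_zero_succ, c_succ_zero]; norm_num
  | a + 1, 0 => by rw [c_zero_succ, c_succ_zero]
  | 1, 1 => by rw [c_one_one]; norm_num
  | 1, b + 2 => by rw [c_one_succ_succ, c_succ_succ_one]; ring
  | a + 2, 1 => by rw [c_one_succ_succ, c_succ_succ_one]
  | a + 2, b + 2 => by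
    have h1 := c_rec a b
    have h2 := c_rec b a
    have i1 := c_skew (a + 1) (b + 2)
    have i2 := c_skew (a + 2) (b + 1)
    have i3 := c_skew (a + 1) (b + 1)
    have i4 := c_skew a (b + 1)
    have i5 := c_skew (a + 1) b
    linarith
termination_by a b => a + b

end Pool.Agent.W223.Osasm
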