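import Pool.Agent.Helper929.Pfaffian

set_option autoImplicit false

namespace Pool.Agent.W223.Osasm

open Pool.Agent.Helper929 Matrix

theorem pf_smul {R : Type*} [CommRing R] (s : R) : ∀ (m : ℕ) (A : Matrix (Fin (2 * m)) (Fin (2 * m)) R),
    pf (2 * m) (s • A) = s ^ m * pf (2 * m) A := by
  intro m
  induction m with
  | zero => intro A; simp [pf]
  | succ m ih =>
    intro A
    show pf (2 * m + 2) (s • A) = s ^ (m + 1) * pf (2 * m + 2) A
    unfold pf
    rw [Finset.mul_sum]
    apply Finset.sum_congr rfl
    intro j _
    have h := ih (A.submatrix (fun k => (j.succAbove k).succ) (fun k => (j.succAbove k).succ))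
    have h2 : (s • A).submatrix (fun k => (j.succAbove k).succ) (fun k => (j.succAbove k).succ) =
      s • (A.submatrix (fun k => (j.succAbove k).succ) (fun k => (j.succAbove k).succ)) := rfl
    have h3 : (s • A) 0 j.succ = s * A 0 j.succ := rfl
    rw [h2, h, h3]
    ring

theorem pf_two {R : Type*} [CommRing R] (A : Matrix (Fin 2) (Fin 2) R) :
    pf 2 A = A 0 (Fin.last 1) := by
  simp [pf]

/-- linearity in the last row and column -/
theorem pf_lin {R : Type*} [CommRing R] (s t : R) : ∀ (n : ℕ) (A A1 A2 : Matrix (Fin (n + 1)) (Fin (n + 1)) R),
    (∀ i j : Fin (n + 1), i ≠ Fin.last n → j ≠ Fin.last n → A1 i j = A i j ∧ A2 i j = A i j) →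
    (∀ i : Fin (n + 1), i ≠ Fin.last n → A i (Fin.last n) = s * A1 i (Fin.last n) + t * A2 i (Fin.last n)) →
    pf (n + 1) A = s * pf (n + 1) A1 + t * pf (n + 1) A2 := by
  intro n
  induction n using Nat.strong_induction_on with
  | _ n ih =>
    intro A A1 A2 h1 h2
    rcases n with _ | _ | n
    · simp [pf]
    · have h := h2 0 (by decide)
      show pf 2 A = s * pf 2 A1 + t * pf 2 A2
      rw [pf_two, pf_two, pf_two]
      exact h
    · show pf (n + 1 + 2) A = s * pf (n + 1 + 2) A1 + t * pf (n + 1 + 2) A2
      unfold pf
      rw [Finset.mul_sum, Finset.mul_sum, ← Finset.sum_add_distrib]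
      apply Finset.sum_congr rfl
      intro j _
      have hz : (0 : Fin (n + 1 + 2)) ≠ Fin.last (n + 1 + 1) := by
        rw [Ne, Fin.ext_iff]; simp
      by_cases hj : j = Fin.last (n + 1)
      · subst hj
        have e0 : A 0 (Fin.last (n + 1)).succ = s * A1 0 (Fin.last (n + 1)).succ
            + t * A2 0 (Fin.last (n + 1)).succ := h2 0 hz
        have hne : ∀ k : Fin (n + 1), ((Fin.last (n + 1)).succAbove k).succ ≠
            Fin.last (n + 1 + 1) := by
          intro k
          rw [Fin.succAbove_last, Ne, Fin.ext_iff]
          simp
          omega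
        have e1 : A1.submatrix (fun k => ((Fin.last (n + 1)).succAbove k).succ)
            (fun k => ((Fin.last (n + 1)).succAbove k).succ) =
            A.submatrix (fun k => ((Fin.last (n + 1)).succAbove k).succ)
            (fun k => ((Fin.last (n + 1)).succAbove k).succ) := by
          ext i k
          exact (h1 _ _ (hne i) (hne k)).1
        have e2 : A2.submatrix (fun k => ((Fin.last (n + 1)).succAbove k).succ)
            (fun k => ((Fin.last (n + 1)).succAbove k).succ) =
            A.submatrix (fun k => ((Fin.last (n + 1)).succAbove k).succ)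
            (fun k => ((Fin.last (n + 1)).succAbove k).succ) := by
          ext i k
          exact (h1 _ _ (hne i) (hne k)).2
        rw [e0, e1, e2]
        ring
      · have hj' : j.succ ≠ Fin.last (n + 1 + 1) := by
          intro h
          apply hj
          rw [Fin.ext_iff] at h ⊢
          simp at h ⊢
          exact h
        have e0 := h1 0 j.succ hz hj'
        have hjl : j < Fin.last (n + 1) := Fin.lt_last_iff_ne_last.2 hj
        have hs : ∀ k : Fin (n + 1), (j.succAbove k).succ = Fin.last (n + 1 + 1) ↔
            k = Fin.last n := by
          intro k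
          rw [Fin.ext_iff, Fin.ext_iff, Fin.val_succ, Fin.val_last, Fin.val_last]
          rw [Fin.lt_def, Fin.val_last] at hjl
          have hk := k.isLt
          unfold Fin.succAbove
          split_ifs with h
          · rw [Fin.lt_def] at h
            simp at h ⊢
            omega
          · simp
        have hlast : (j.succAbove (Fin.last n)).succ = Fin.last (n + 1 + 1) := (hs _).2 rfl
        have e := ih n (by omega) (A.submatrix (fun k => (j.succAbove k).succ)
            (fun k => (j.succAbove k).succ)) (A1.submatrix (fun k => (j.succAbove k).succ)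
            (fun k => (j.succAbove k).succ)) (A2.submatrix (fun k => (j.succAbove k).succ)
            (fun k => (j.succAbove k).succ)) (by
              intro i k hi hk
              exact h1 _ _ (fun h => hi ((hs i).1 h)) (fun h => hk ((hs k).1 h))) (by
              intro i hi
              simp only [Matrix.submatrix_apply, hlast]
              exact h2 _ (fun h => hi ((hs i).1 h)))
        rw [e, e0.1, e0.2]
        ring

end Pool.Agent.W223.Osasm
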