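import Pool.Agent.W223.Osasm.Tr
import Pool.Agent.W223.Osasm.PfLin

set_option autoImplicit false

namespace Pool.Agent.W223.Osasm

open Pool.Agent.Helper929 Matrix Finset

/-- Entry in row `a` and column `b` of the array: `c a b` for `b ≤ 2 * n`,
and `u a` in the last column `b = 2 * n + 1`. -/
noncomputable def ent (n : ℕ) (u : ℕ → ℚ) (a b : ℕ) : ℚ := if b ≤ 2 * n then c a b else u a

/-- The skew-symmetric array of order `2 * n + 2` whose entries above the diagonal
are `ent n u a b`. -/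
noncomputable def arr (n : ℕ) (u : ℕ → ℚ) : Matrix (Fin (2 * n + 2)) (Fin (2 * n + 2)) ℚ :=
  fun i j => if i < j then ent n u i j else if j < i then - ent n u j i else 0

theorem c_self (a : ℕ) : c a a = 0 := by
  have := c_skew a a
  linarith

theorem arr_skew (n : ℕ) (u : ℕ → ℚ) (i j : Fin (2 * n + 2)) : arr n u i j = - arr n u j i := by
  unfold arr
  rcases lt_trichotomy i j with h | h | h
  · rw [if_pos h, if_neg (not_lt.2 h.le), if_pos h]; ring
  · subst h; simp
  · rw [if_neg (not_lt.2 h.le), if_pos h, if_pos h]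

theorem arr_small (n : ℕ) (u : ℕ → ℚ) (i j : Fin (2 * n + 2)) (hi : (i : ℕ) ≤ 2 * n)
    (hj : (j : ℕ) ≤ 2 * n) : arr n u i j = c i j := by
  unfold arr ent
  rcases lt_trichotomy i j with h | h | h
  · rw [if_pos h, if_pos hj]
  · subst h; simp [c_self]
  · rw [if_neg (not_lt.2 h.le), if_pos h, if_pos hi, c_skew (i : ℕ)]

theorem arr_last (n : ℕ) (u : ℕ → ℚ) (i j : Fin (2 * n + 2)) (hi : (i : ℕ) ≤ 2 * n)
    (hj : (j : ℕ) = 2 * n + 1) : arr n u i j = u i := by
  unfold arr ent
  have h : i < j := by rw [Fin.lt_def]; omega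
  rw [if_pos h, if_neg (by omega)]

/-- the matrix of the substitution -/
def Bm (n : ℕ) : Matrix (Fin (2 * n + 2)) (Fin (2 * n + 2)) ℚ := fun i j =>
  if (i : ℕ) ≤ 2 * n then (if (j : ℕ) ≤ 2 * n then (-1) ^ (j : ℕ) * ((i : ℕ).choose (j : ℕ) : ℚ) else 0)
  else (if (j : ℕ) ≤ 2 * n then 0 else -1)

theorem prod_sign (n : ℕ) : ∏ x ∈ range (2 * n + 1), (-1 : ℚ) ^ x = (-1) ^ n := by
  induction n with
  | zero => simp
  | succ n ih =>
    rw [show 2 * (n + 1) + 1 = 2 * n + 1 + 1 + 1 by ring, Finset.prod_range_succ,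
      Finset.prod_range_succ, ih]
    rw [pow_succ (-1 : ℚ) (2 * n + 1), pow_succ (-1 : ℚ) (2 * n), pow_mul]
    norm_num
    ring

theorem Bm_det (n : ℕ) : (Bm n).det = (-1) ^ (n + 1) := by
  have h : (Bm n).IsLowerTriangular := by
    intro i j hij
    have hij' : i < j := hij
    rw [Fin.lt_def] at hij'
    unfold Bm
    split_ifs with h1 h2 h3
    · rw [Nat.choose_eq_zero_of_lt hij']; simp
    · rfl
    · rfl
    · omega
  rw [Matrix.det_of_isLowerTriangular _ h]
  have h2 : ∀ i : Fin (2 * n + 2), Bm n i i =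
      if (i : ℕ) ≤ 2 * n then (-1 : ℚ) ^ (i : ℕ) else -1 := by
    intro i
    unfold Bm
    split_ifs with h
    · simp
    · rfl
  rw [Finset.prod_congr rfl fun i _ => h2 i]
  rw [Fin.prod_univ_eq_prod_range (fun i => if i ≤ 2 * n then (-1 : ℚ) ^ i else -1) (2 * n + 2)]
  rw [Finset.prod_range_succ, if_neg (by omega)]
  have h3 : ∏ x ∈ range (2 * n + 1), (if x ≤ 2 * n then (-1 : ℚ) ^ x else -1) =
      ∏ x ∈ range (2 * n + 1), (-1 : ℚ) ^ x := by
    apply Finset.prod_congr rfl
    intro x hx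
    rw [Finset.mem_range] at hx
    rw [if_pos (by omega)]
  rw [h3, prod_sign, pow_succ]

theorem sum_fin_to_range (n : ℕ) (f : ℕ → ℚ) :
    ∑ k : Fin (2 * n + 2), f k = ∑ k ∈ range (2 * n + 1), f k + f (2 * n + 1) := by
  rw [Fin.sum_univ_eq_sum_range f, Finset.sum_range_succ]

theorem Bm_small_sum (n a : ℕ) (ha : a ≤ 2 * n) (f : ℕ → ℚ) :
    ∑ k ∈ range (2 * n + 1), (-1) ^ k * (a.choose k : ℚ) * f k = T f a := by
  unfold T
  symm
  apply Finset.sum_subset
  · intro x hx
    rw [mem_range] at hx ⊢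
    omega
  · intro x hx hx2
    rw [mem_range] at hx hx2
    rw [Nat.choose_eq_zero_of_lt (by omega)]
    simp

/-- the substitution maps the first array to minus the array with last column `2 ^ a` -/
theorem transform (n : ℕ) : Bm n * arr n (fun a => (-1) ^ a) * (Bm n)ᵀ =
    (-1 : ℚ) • arr n (fun a => 2 ^ a) := by
  have hskL : ∀ i j, (Bm n * arr n (fun a => (-1) ^ a) * (Bm n)ᵀ) i j =
      - (Bm n * arr n (fun a => (-1) ^ a) * (Bm n)ᵀ) j i := by
    intro i j
    simp only [Matrix.mul_apply, Matrix.transpose_apply, Finset.sum_mul]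
    rw [Finset.sum_comm, ← Finset.sum_neg_distrib]
    apply Finset.sum_congr rfl
    intro k _
    rw [← Finset.sum_neg_distrib]
    apply Finset.sum_congr rfl
    intro l _
    rw [arr_skew]
    ring
  -- the sum for a general function of the first index
  have key : ∀ (i : Fin (2 * n + 2)) (f : Fin (2 * n + 2) → ℚ) (g : ℕ → ℚ), (i : ℕ) ≤ 2 * n →
      (∀ k : Fin (2 * n + 2), (k : ℕ) ≤ 2 * n → f k = g k) →
      ∑ k, Bm n i k * f k = T g i := by
    intro i f g hi hfg
    rw [← Bm_small_sum n i hi g]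
    have h1 : ∀ k : Fin (2 * n + 2), Bm n i k * f k =
        (fun k : ℕ => if k ≤ 2 * n then (-1) ^ k * ((i : ℕ).choose k : ℚ) * g k else 0) k := by
      intro k
      unfold Bm
      by_cases hk : (k : ℕ) ≤ 2 * n
      · simp only [if_pos hi, if_pos hk, hfg k hk]
      · simp only [if_pos hi, if_neg hk, zero_mul]
    rw [Finset.sum_congr rfl fun k _ => h1 k,
      sum_fin_to_range n (fun k : ℕ => if k ≤ 2 * n then (-1) ^ k * ((i : ℕ).choose k : ℚ) * g k else 0),
      if_neg (by omega), add_zero]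
    apply Finset.sum_congr rfl
    intro k hk
    rw [mem_range] at hk
    rw [if_pos (by omega)]
  have key2 : ∀ (i : Fin (2 * n + 2)) (f : Fin (2 * n + 2) → ℚ), (i : ℕ) = 2 * n + 1 →
      ∑ k, Bm n i k * f k = - f i := by
    intro i f hi
    rw [Finset.sum_eq_single i]
    · unfold Bm
      rw [if_neg (by omega), if_neg (by omega)]
      ring
    · intro k _ hk
      have : (k : ℕ) ≠ (i : ℕ) := fun h => hk (Fin.ext h)
      unfold Bm
      rw [if_neg (by omega), if_pos (by omega), zero_mul]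
    · intro h
      exact absurd (mem_univ i) h
  have expand : ∀ i j, (Bm n * arr n (fun a => (-1) ^ a) * (Bm n)ᵀ) i j =
      ∑ k, Bm n i k * ∑ l, Bm n j l * arr n (fun a => (-1) ^ a) k l := by
    intro i j
    simp only [Matrix.mul_apply, Matrix.transpose_apply, Finset.sum_mul, Finset.mul_sum]
    rw [Finset.sum_comm]
    apply Finset.sum_congr rfl
    intro k _
    apply Finset.sum_congr rfl
    intro l _
    ring
  have main : ∀ i j : Fin (2 * n + 2), (i : ℕ) ≤ 2 * n →
      (Bm n * arr n (fun a => (-1) ^ a) * (Bm n)ᵀ) i j = ((-1 : ℚ) • arr n (fun a => 2 ^ a)) i j := by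
    intro i j hi
    rw [expand, Matrix.smul_apply]
    by_cases hj : (j : ℕ) ≤ 2 * n
    · rw [arr_small n _ i j hi hj]
      have h1 : ∀ k : Fin (2 * n + 2), (k : ℕ) ≤ 2 * n →
          ∑ l, Bm n j l * arr n (fun a => (-1) ^ a) k l =
          T (fun l => c k l) j := by
        intro k hk
        exact key j _ (fun l => c k l) hj (fun l hl => arr_small n _ k l hk hl)
      rw [key i _ (fun k => T (fun l => c k l) j) hi h1]
      have h2 := U_c i j
      unfold U at h2
      rw [h2, smul_eq_mul]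
      ring
    · have hj' : (j : ℕ) = 2 * n + 1 := by omega
      rw [arr_last n _ i j hi hj']
      have h1 : ∀ k : Fin (2 * n + 2), (k : ℕ) ≤ 2 * n →
          ∑ l, Bm n j l * arr n (fun a => (-1) ^ a) k l =
          - (-1 : ℚ) ^ (k : ℕ) := by
        intro k hk
        rw [key2 j _ hj', arr_last n _ k j hk hj']
      rw [key i _ (fun k : ℕ => - (-1 : ℚ) ^ k) hi h1]
      unfold T
      rw [smul_eq_mul]
      have h3 : ∀ k ∈ range ((i : ℕ) + 1), (-1 : ℚ) ^ k * ((i : ℕ).choose k : ℚ) * -(-1) ^ k =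
          -(((i : ℕ).choose k : ℕ) : ℚ) := by
        intro k _
        have : (-1 : ℚ) ^ k * (-1) ^ k = 1 := by
          rw [← mul_pow]; norm_num
        linear_combination (-(((i : ℕ).choose k : ℕ) : ℚ)) * this
      rw [Finset.sum_congr rfl h3, Finset.sum_neg_distrib, ← Nat.cast_sum, Nat.sum_range_choose]
      push_cast
      ring
  ext i j
  by_cases hi : (i : ℕ) ≤ 2 * n
  · exact main i j hi
  · by_cases hj : (j : ℕ) ≤ 2 * n
    · rw [hskL, main j i hj, Matrix.smul_apply, Matrix.smul_apply, arr_skew n _ j i]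
      simp
    · have : i = j := Fin.ext (by omega)
      subst this
      have h1 := hskL i i
      have h2 := arr_skew n (fun a => 2 ^ a) i i
      rw [Matrix.smul_apply, smul_eq_mul]
      linarith

/-- The two basic Pfaffians coincide. -/
theorem pf_two_pow (n : ℕ) : pf (2 * n + 2) (arr n (fun a => 2 ^ a)) =
    pf (2 * n + 2) (arr n (fun a => (-1) ^ a)) := by
  have h := pf_gram (arr n (fun a => (-1) ^ a)) (arr_skew n _) (Bm n)
  rw [transform, Bm_det] at h
  have h2 := pf_smul (-1 : ℚ) (n + 1) (arr n (fun a => 2 ^ a))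
  have h3 : pf (2 * n + 2) ((-1 : ℚ) • arr n (fun a => 2 ^ a)) =
      (-1) ^ (n + 1) * pf (2 * n + 2) (arr n (fun a => 2 ^ a)) := h2
  rw [h3] at h
  have h4 : (-1 : ℚ) ^ (n + 1) ≠ 0 := pow_ne_zero _ (by norm_num)
  exact mul_left_cancel₀ h4 h

theorem pf_comb (n : ℕ) (s t : ℚ) (u v : ℕ → ℚ) :
    pf (2 * n + 2) (arr n (fun a => s * u a + t * v a)) =
    s * pf (2 * n + 2) (arr n u) + t * pf (2 * n + 2) (arr n v) := by
  have hl : ((Fin.last (2 * n + 1) : Fin (2 * n + 2)) : ℕ) = 2 * n + 1 := rfl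
  have hne : ∀ i : Fin (2 * n + 2), i ≠ Fin.last (2 * n + 1) → (i : ℕ) ≤ 2 * n := by
    intro i hi
    have h1 := i.isLt
    have h2 : (i : ℕ) ≠ 2 * n + 1 := fun h => hi (Fin.ext h)
    omega
  apply pf_lin s t (2 * n + 1)
  · intro i j hi hj
    rw [arr_small n _ i j (hne i hi) (hne j hj), arr_small n _ i j (hne i hi) (hne j hj),
      arr_small n _ i j (hne i hi) (hne j hj)]
    exact ⟨rfl, rfl⟩
  · intro i hi
    rw [arr_last n _ i _ (hne i hi) hl, arr_last n _ i _ (hne i hi) hl,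
      arr_last n _ i _ (hne i hi) hl]

theorem main (n : ℕ) : pf (2 * n + 2) (arr n (fun a => (-1) ^ a)) =
    pf (2 * n + 2) (arr n (fun a => ((-1) ^ a + 2 ^ a) / 2)) := by
  have h := pf_comb n (1 / 2) (1 / 2) (fun a => (-1) ^ a) (fun a => 2 ^ a)
  have h2 : (fun a : ℕ => (((-1 : ℚ)) ^ a + 2 ^ a) / 2) =
      fun a => (1 / 2) * (-1 : ℚ) ^ a + (1 / 2) * 2 ^ a := by
    funext a
    ring
  rw [h2, h, pf_two_pow]
  ring

end Pool.Agent.W223.Osasm
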