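import Pool.Agent.W223.Osasm.Coef

set_option autoImplicit false

namespace Pool.Agent.W223.Osasm

open Finset

/-- binomial transform -/
def T (f : ℕ → ℚ) (a : ℕ) : ℚ := ∑ k ∈ range (a + 1), (-1) ^ k * (a.choose k : ℚ) * f k

theorem T_zero (f : ℕ → ℚ) : T f 0 = f 0 := by simp [T]

theorem T_succ (f : ℕ → ℚ) (a : ℕ) : T f (a + 1) = T f a - T (fun k => f (k + 1)) a := by
  unfold T
  rw [sum_range_succ' _ (a + 1)]
  have h1 : ∀ k ∈ range (a + 1), (-1 : ℚ) ^ (k + 1) * ((a + 1).choose (k + 1) : ℚ) * f (k + 1) =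
      (-1 : ℚ) ^ (k + 1) * (a.choose (k + 1) : ℚ) * f (k + 1)
        - (-1 : ℚ) ^ k * (a.choose k : ℚ) * f (k + 1) := by
    intro k _
    rw [Nat.choose_succ_succ]
    push_cast
    ring
  rw [sum_congr rfl h1, sum_sub_distrib]
  have h2 : ∑ k ∈ range (a + 1), (-1 : ℚ) ^ (k + 1) * (a.choose (k + 1) : ℚ) * f (k + 1) +
      (-1 : ℚ) ^ 0 * ((a + 1).choose 0 : ℚ) * f 0 =
      ∑ k ∈ range (a + 1), (-1 : ℚ) ^ k * (a.choose k : ℚ) * f k := by
    rw [sum_range_succ, Nat.choose_succ_self, sum_range_succ' _ a]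
    simp
  rw [← h2]
  ring

theorem T_add (f g : ℕ → ℚ) (a : ℕ) : T (fun k => f k + g k) a = T f a + T g a := by
  unfold T
  rw [← sum_add_distrib]
  exact sum_congr rfl fun k _ => by ring

theorem T_sub (f g : ℕ → ℚ) (a : ℕ) : T (fun k => f k - g k) a = T f a - T g a := by
  unfold T
  rw [← sum_sub_distrib]
  exact sum_congr rfl fun k _ => by ring

theorem T_shift (f : ℕ → ℚ) (a : ℕ) : T (fun k => f (k + 1)) a = T f a - T f (a + 1) := by
  rw [T_succ]; ring

theorem T_shift2 (f : ℕ → ℚ) (a : ℕ) :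
    T (fun k => f (k + 2)) a = T f a - 2 * T f (a + 1) + T f (a + 2) := by
  have h := T_shift (fun k => f (k + 1)) a
  have h' : T (fun k => f (k + 2)) a = T (fun k => (fun k => f (k + 1)) (k + 1)) a := rfl
  rw [h', h, T_shift, T_shift]
  ring

/-- double transform -/
def U (f : ℕ → ℕ → ℚ) (a b : ℕ) : ℚ := T (fun k => T (fun l => f k l) b) a

theorem U_eq (f : ℕ → ℕ → ℚ) (a b : ℕ) : U f a b =
    ∑ k ∈ range (a + 1), ∑ l ∈ range (b + 1),
      ((-1) ^ k * (a.choose k : ℚ)) * ((-1) ^ l * (b.choose l : ℚ)) * f k l := by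
  unfold U T
  apply sum_congr rfl
  intro k _
  rw [mul_sum]
  exact sum_congr rfl fun l _ => by ring

theorem U_swap (f : ℕ → ℕ → ℚ) (a b : ℕ) : U f a b = U (fun k l => f l k) b a := by
  rw [U_eq, U_eq, sum_comm]
  apply sum_congr rfl
  intro k _
  apply sum_congr rfl
  intro l _
  ring

theorem U_add (f g : ℕ → ℕ → ℚ) (a b : ℕ) :
    U (fun k l => f k l + g k l) a b = U f a b + U g a b := by
  unfold U
  rw [← T_add]
  congr 1
  funext k
  rw [T_add]

theorem U_sub (f g : ℕ → ℕ → ℚ) (a b : ℕ) :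
    U (fun k l => f k l - g k l) a b = U f a b - U g a b := by
  unfold U
  rw [← T_sub]
  congr 1
  funext k
  rw [T_sub]

theorem U_s1 (f : ℕ → ℕ → ℚ) (a b : ℕ) :
    U (fun k l => f (k + 1) l) a b = U f a b - U f (a + 1) b := by
  unfold U
  exact T_shift (fun k => T (fun l => f k l) b) a

theorem U_s2 (f : ℕ → ℕ → ℚ) (a b : ℕ) :
    U (fun k l => f k (l + 1)) a b = U f a b - U f a (b + 1) := by
  rw [U_swap, U_s1 (fun k l => f l k), ← U_swap, ← U_swap f]

theorem U_c_rec (a b : ℕ) : U c (a + 2) (b + 2) - U c (a + 1) (b + 2) - U c (a + 2) (b + 1)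
    - U c (a + 1) (b + 1) + U c a (b + 1) + U c (a + 1) b = 0 := by
  have h : U (fun k l => c (k + 2) (l + 2) - c (k + 1) (l + 2) - c (k + 2) (l + 1)
    - c (k + 1) (l + 1) + c k (l + 1) + c (k + 1) l) a b = 0 := by
    have : (fun k l => c (k + 2) (l + 2) - c (k + 1) (l + 2) - c (k + 2) (l + 1)
    - c (k + 1) (l + 1) + c k (l + 1) + c (k + 1) l) = fun _ _ => (0 : ℚ) := by
      funext k l
      exact c_rec k l
    rw [this, U_eq]
    simp
  simp only [U_add, U_sub] at h
  have e1 : ∀ a b, U (fun k l => c (k + 1) l) a b = U c a b - U c (a + 1) b := U_s1 c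
  have e2 : ∀ a b, U (fun k l => c k (l + 1)) a b = U c a b - U c a (b + 1) := U_s2 c
  have e3 : ∀ a b, U (fun k l => c (k + 1) (l + 1)) a b =
      U (fun k l => c (k + 1) l) a b - U (fun k l => c (k + 1) l) a (b + 1) :=
    U_s2 (fun k l => c (k + 1) l)
  have e4 : ∀ a b, U (fun k l => c (k + 1) (l + 2)) a b =
      U (fun k l => c (k + 1) (l + 1)) a b - U (fun k l => c (k + 1) (l + 1)) a (b + 1) :=
    U_s2 (fun k l => c (k + 1) (l + 1))
  have e5 : ∀ a b, U (fun k l => c (k + 2) (l + 1)) a b =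
      U (fun k l => c (k + 1) (l + 1)) a b - U (fun k l => c (k + 1) (l + 1)) (a + 1) b :=
    U_s1 (fun k l => c (k + 1) (l + 1))
  have e6 : ∀ a b, U (fun k l => c (k + 2) (l + 2)) a b =
      U (fun k l => c (k + 1) (l + 2)) a b - U (fun k l => c (k + 1) (l + 2)) (a + 1) b :=
    U_s1 (fun k l => c (k + 1) (l + 2))
  simp only [e6, e5, e4, e3, e2, e1] at h
  linarith

theorem T_c_zero (a : ℕ) : T (fun k => c k 0) a = - c a 0 := by
  have h1 : ∀ a, T (fun _ => (-1 : ℚ)) a = if a = 0 then -1 else 0 := by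
    intro a
    induction a with
    | zero => simp [T_zero]
    | succ a ih =>
      rw [T_succ]
      simp
  induction a with
  | zero => rw [T_zero, c_zero_zero]; norm_num
  | succ a ih =>
    rw [T_succ, ih]
    have : (fun k => c (k + 1) 0) = fun _ => (-1 : ℚ) := by
      funext k; exact c_succ_zero k
    rw [this, h1]
    rcases a with _ | a
    · rw [c_zero_zero, c_succ_zero]; norm_num
    · rw [c_succ_zero, c_succ_zero]; norm_num

theorem T_c_one (a : ℕ) : T (fun k => c k 1) a =
    (if a = 1 then 1 else 0) + 1 - (a : ℚ) := by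
  have h1 : ∀ a, T (fun k => c (k + 2) 1) a =
      (if a = 0 then -2 else if a = 1 then 1 else 0) := by
    intro a
    have h2 : (fun k => c (k + 2) 1) = fun k : ℕ => -((k : ℚ) + 2) := by
      funext k; exact c_succ_succ_one k
    rw [h2]
    have h3 : ∀ a, T (fun _ => (1 : ℚ)) a = if a = 0 then 1 else 0 := by
      intro a
      induction a with
      | zero => simp [T_zero]
      | succ a ih =>
        rw [T_succ]
        simp
    induction a with
    | zero => simp [T_zero]
    | succ a ih =>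
      rw [T_succ, ih]
      have h4 : (fun k : ℕ => -(((k + 1 : ℕ) : ℚ) + 2)) =
          fun k : ℕ => (-((k : ℚ) + 2)) - (1 : ℚ) := by
        funext k
        push_cast
        ring
      rw [h4, T_sub, ih, h3]
      rcases a with _ | a
      · norm_num
      · norm_num
  have h5 : ∀ a, T (fun k => c (k + 1) 1) a =
      (if a = 0 then 0 else if a = 1 then 2 else 1) := by
    intro a
    induction a with
    | zero => simp [T_zero, c_one_one]
    | succ a ih =>
      rw [T_succ, ih]
      have h6 : (fun k => c (k + 1 + 1) 1) = fun k => c (k + 2) 1 := rfl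
      rw [h6, h1]
      rcases a with _ | _ | a
      · norm_num
      · norm_num
      · norm_num
  induction a with
  | zero => 
    rw [T_zero]
    have := c_zero_succ 0
    norm_num at this ⊢
    exact this
  | succ a ih =>
    rw [T_succ, ih, h5]
    rcases a with _ | _ | a
    · norm_num
    · norm_num
    · norm_num
      try ring

theorem U_c_zero (a : ℕ) : U c a 0 = - c a 0 := by
  unfold U
  simp only [T_zero]
  exact T_c_zero a

theorem U_c_one (a : ℕ) : U c a 1 = - c a 1 := by
  have h := U_s2 c a 0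
  have h1 : U (fun k l => c k (l + 1)) a 0 = T (fun k => c k 1) a := by
    unfold U
    simp only [T_zero]
  rw [h1, U_c_zero, T_c_one] at h
  have h2 : U c a 1 = - c a 0 - ((if a = 1 then 1 else 0) + 1 - (a : ℚ)) := by
    norm_num at h
    linarith
  rw [h2]
  rcases a with _ | _ | a
  · have := c_zero_succ 0
    rw [c_zero_zero]
    norm_num at this ⊢
    exact this.symm
  · rw [c_succ_zero, c_one_one]
    norm_num
  · rw [c_succ_zero, c_succ_succ_one]
    push_cast
    norm_num
    ring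

theorem U_c_swap (a b : ℕ) : U c a b = - U c b a := by
  rw [U_swap, U_eq, U_eq, ← sum_neg_distrib]
  apply sum_congr rfl
  intro k _
  rw [← sum_neg_distrib]
  apply sum_congr rfl
  intro l _
  rw [c_skew l k]
  ring

theorem U_c : ∀ a b : ℕ, U c a b = - c a b
  | a, 0 => U_c_zero a
  | a, 1 => U_c_one a
  | 0, b + 2 => by rw [U_c_swap, U_c_zero, c_skew 0]
  | 1, b + 2 => by rw [U_c_swap, U_c_one, c_skew 1]
  | a + 2, b + 2 => by
    have h1 := c_rec a b
    have h2 := U_c_rec a b
    have i1 := U_c (a + 1) (b + 2)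
    have i2 := U_c (a + 2) (b + 1)
    have i3 := U_c (a + 1) (b + 1)
    have i4 := U_c a (b + 1)
    have i5 := U_c (a + 1) b
    linarith
termination_by a b => a + b

end Pool.Agent.W223.Osasm
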